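import Pool.Agent.TH423.PO.MainG
import Pool.Agent.TH423.PO.All

/-!
# Sums of two integers without small prime factors and with prescribed classes of `Ω`, at all scales

`Ω` is the number of prime factors, counted with multiplicity (`ArithmeticFunction.cardFactors`).

For every modulus `k` there are constants `C` and `Y₀` such that for every `Y ≥ Y₀` and every even
integer `N ≥ Y ^ C` there is one class `g` modulo `k` with the following property.  For every class
`u` modulo `k` there are at least `N / Y ^ C` representations `N = x + y` in positive integers `x`,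
`y` without prime factors `≤ Y`, for which `Ω(x) = u + g` and `Ω(y) = u` modulo `k`.

The scale `Y` is arbitrary between a constant and a power of `N`.  For constant `Y` this is a
positive proportion of all representations, for `Y = log N` it is a proportion `(log N) ^ (-C)`, and
for `Y = N ^ δ` the integers `x` and `y` have boundedly many prime factors.
-/

set_option autoImplicit false

namespace Pool.Agent.Results.MP_dd84fd_nt.ClassesOfOmegaAllScales

open ArithmeticFunction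

/-- The representations `N = x + y` by positive integers without prime factors `≤ Y` (and hence
with at most `log N / log Y` prime factors each, which is the condition `Y ^ Ω ≤ N`), where
`Ω(x)` is `a` and `Ω(y)` is `b` modulo `k`. -/
def Reps (N k Y : ℕ) (a b : ZMod k) : Set (ℕ × ℕ) :=
  {p | p.1 + p.2 = N ∧ 0 < p.1 ∧ 0 < p.2 ∧ (∀ q : ℕ, q.Prime → q ∣ p.1 → Y < q) ∧
    (∀ q : ℕ, q.Prime → q ∣ p.2 → Y < q) ∧ Y ^ cardFactors p.1 ≤ N ∧ Y ^ cardFactors p.2 ≤ N ∧
    ((cardFactors p.1 : ℕ) : ZMod k) = a ∧ ((cardFactors p.2 : ℕ) : ZMod k) = b}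

theorem reps_finite (N k Y : ℕ) (a b : ZMod k) : (Reps N k Y a b).Finite := by
  refine Set.Finite.subset (Finset.HasAntidiagonal.antidiagonal N).finite_toSet fun p hp => ?_
  rw [Finset.mem_coe, Finset.HasAntidiagonal.mem_antidiagonal]
  exact hp.1

theorem pow_le (Y : ℕ) (x : ℕ) (hx : 0 < x) (h : ∀ q : ℕ, q.Prime → q ∣ x → Y < q) :
    Y ^ cardFactors x ≤ x := by
  rw [cardFactors_apply]
  conv_rhs => rw [← Nat.prod_primeFactorsList hx.ne']
  apply List.pow_card_le_prod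
  intro q hq
  exact (h q (Nat.prime_of_mem_primeFactorsList hq) (Nat.dvd_of_mem_primeFactorsList hq)).le

/-- all scales -/
theorem scales (k : ℕ) (hk : 1 ≤ k) : ∃ C Y₀ : ℕ, ∀ Y : ℕ, Y₀ ≤ Y → ∀ N : ℕ, Y ^ C ≤ N → Even N →
    ∃ g : ZMod k, ∀ u : ZMod k, N ≤ Y ^ C * (Reps N k Y (u + g) u).ncard := by
  classical
  have : NeZero k := ⟨by omega⟩
  obtain ⟨C, Y₀, hY₀, hcount⟩ := Pool.Agent.TH423.PO.gct_all k hk
  refine ⟨C + 1, max Y₀ (k + 1), fun Y hY N hN hev => ?_⟩
  have hY1 : Y₀ ≤ Y := (le_max_left _ _).trans hY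
  have hY2 : k + 1 ≤ Y := (le_max_right _ _).trans hY
  have hYN : Y ^ C ≤ N := le_trans (Nat.pow_le_pow_right (by omega) (by omega)) hN
  have hN0 : 0 < N := lt_of_lt_of_le (pow_pos (by omega) _) hN
  by_contra hcon
  push Not at hcon
  choose v hv using hcon
  have hmain := hcount Y N hY1 hYN hev v
  have hsub : (fun x => (x, N - x)) '' (Pool.Agent.TH423.PO.EXG k v Y N) ⊆
      ⋃ g, Reps N k Y (v g + g) (v g) := by
    rintro _ ⟨x, ⟨h1, h2, h5, h6, g, h8, h9⟩, rfl⟩
    rw [Set.mem_iUnion]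
    have hx1 : ∀ q : ℕ, q.Prime → q ∣ x → Y < q := by
      intro q hq hqx
      by_contra hc
      exact h5 q hq (not_lt.1 hc) (by exact_mod_cast hqx)
    have hx2 : ∀ q : ℕ, q.Prime → q ∣ (N - x) → Y < q := by
      intro q hq hqx
      by_contra hc
      exact h6 q hq (not_lt.1 hc) (by exact_mod_cast hqx)
    refine ⟨g, ?_, h1, ?_, hx1, hx2, ?_, ?_, h8, h9⟩
    · show x + (N - x) = N
      omega
    · show 0 < N - x
      omega
    · exact (pow_le Y x h1 hx1).trans h2.le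
    · exact (pow_le Y (N - x) (by omega) hx2).trans (Nat.sub_le _ _)
  have hfin : (⋃ g, Reps N k Y (v g + g) (v g)).Finite := Set.finite_iUnion fun g => reps_finite _ _ _ _ _
  have h1 : (Pool.Agent.TH423.PO.EXG k v Y N).ncard ≤ ∑ g, (Reps N k Y (v g + g) (v g)).ncard := by
    rw [← Set.ncard_image_of_injective (Pool.Agent.TH423.PO.EXG k v Y N)
      (f := fun x => (x, N - x)) (fun x y h => (Prod.mk.inj h).1)]
    exact (Set.ncard_le_ncard hsub hfin).trans (Set.ncard_iUnion_le_of_fintype _)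
  have h2 : Y ^ (C + 1) * ∑ g, (Reps N k Y (v g + g) (v g)).ncard < k * N := by
    rw [Finset.mul_sum]
    calc ∑ g, Y ^ (C + 1) * (Reps N k Y (v g + g) (v g)).ncard < ∑ _g : ZMod k, N :=
          Finset.sum_lt_sum_of_nonempty Finset.univ_nonempty fun g _ => hv g
      _ = k * N := by rw [Finset.sum_const, Finset.card_univ, ZMod.card, smul_eq_mul]
  have h3 : Y * N ≤ Y ^ (C + 1) * (Pool.Agent.TH423.PO.EXG k v Y N).ncard := by
    rw [pow_succ, mul_comm (Y ^ C) Y, mul_assoc]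
    exact Nat.mul_le_mul_left _ hmain
  have h4 := Nat.mul_le_mul_left (Y ^ (C + 1)) h1
  have h5 : Y * N < k * N := lt_of_le_of_lt (h3.trans h4) h2
  have h6 : k * N ≤ Y * N := Nat.mul_le_mul_right _ (by omega)
  omega

/-- **Sums of two integers with prescribed classes of `Ω`, at all scales.**  Let `k ≥ 1`.

(1) There are `C` and `Y₀` such that for every `Y ≥ Y₀` and every even `N ≥ Y ^ C` there is a class
`g` modulo `k` such that for every class `u` modulo `k` at least `N / Y ^ C` pairs `(x, y)` of positive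
integers with `x + y = N` have no prime factors `≤ Y` and satisfy `Ω(x) = u + g`, `Ω(y) = u` modulo `k`
(and have at most `log N / log Y` prime factors each).

(2) For every `Y` there are `c > 0` and `N₀` such that for every even `N ≥ N₀` there is a class `g`
modulo `k` such that for every class `u` modulo `k` at least `c N` pairs `(x, y)` of positive integers
with `x + y = N` have no prime factors `≤ Y` and satisfy `Ω(x) = u + g`, `Ω(y) = u` modulo `k`.

(3) For every `ε > 0` there are `δ > 0`, `R` and `N₀` such that for every even `N ≥ N₀` there is a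
class `g` modulo `k` such that for every class `u` modulo `k` at least `N ^ (1 - ε)` pairs `(x, y)` of
positive integers with `x + y = N` have all their prime factors larger than `N ^ δ`, at most `R` prime
factors each, and satisfy `Ω(x) = u + g`, `Ω(y) = u` modulo `k`. -/
theorem result (k : ℕ) (hk : 1 ≤ k) :
    (∃ C Y₀ : ℕ, ∀ Y : ℕ, Y₀ ≤ Y → ∀ N : ℕ, Y ^ C ≤ N → Even N →
      ∃ g : ZMod k, ∀ u : ZMod k, (Reps N k Y (u + g) u).Finite ∧
        N ≤ Y ^ C * (Reps N k Y (u + g) u).ncard) ∧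
    (∀ Y : ℕ, ∃ (c : ℝ) (N₀ : ℕ), 0 < c ∧ ∀ N : ℕ, N₀ ≤ N → Even N →
      ∃ g : ZMod k, ∀ u : ZMod k, (Reps N k Y (u + g) u).Finite ∧
        c * N ≤ ((Reps N k Y (u + g) u).ncard : ℝ)) ∧
    (∀ ε : ℝ, 0 < ε → ∃ (R N₀ : ℕ) (δ : ℝ), 0 < δ ∧ ∀ N : ℕ, N₀ ≤ N → Even N →
      ∃ g : ZMod k, ∀ u : ZMod k,
        {p : ℕ × ℕ | p ∈ Reps N k 1 (u + g) u ∧ cardFactors p.1 ≤ R ∧ cardFactors p.2 ≤ R ∧
          (∀ q : ℕ, q.Prime → q ∣ p.1 → (N : ℝ) ^ δ < q) ∧
          (∀ q : ℕ, q.Prime → q ∣ p.2 → (N : ℝ) ^ δ < q)}.Finite ∧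
        (N : ℝ) ^ (1 - ε) ≤
          ({p : ℕ × ℕ | p ∈ Reps N k 1 (u + g) u ∧ cardFactors p.1 ≤ R ∧ cardFactors p.2 ≤ R ∧
            (∀ q : ℕ, q.Prime → q ∣ p.1 → (N : ℝ) ^ δ < q) ∧
            (∀ q : ℕ, q.Prime → q ∣ p.2 → (N : ℝ) ^ δ < q)}.ncard : ℝ)) := by
  obtain ⟨C, Y₀, h⟩ := scales k hk
  refine ⟨⟨C, Y₀, fun Y hY N hN hev => ?_⟩, fun Y => ?_, fun ε hε => ?_⟩
  · obtain ⟨g, hg⟩ := h Y hY N hN hev
    exact ⟨g, fun u => ⟨reps_finite _ _ _ _ _, hg u⟩⟩
  · set Z := max (max Y Y₀) 1 with hZ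
    have hZ0 : Y₀ ≤ Z := (le_max_right _ _).trans (le_max_left _ _)
    have hZY : Y ≤ Z := (le_max_left _ _).trans (le_max_left _ _)
    have hZ1 : 1 ≤ Z := le_max_right _ _
    have hZp : (0:ℝ) < (Z:ℝ) ^ C := pow_pos (by exact_mod_cast hZ1) _
    refine ⟨1 / (Z:ℝ) ^ C, Z ^ C, by positivity, fun N hN hev => ?_⟩
    obtain ⟨g, hg⟩ := h Z hZ0 N hN hev
    refine ⟨g, fun u => ⟨reps_finite _ _ _ _ _, ?_⟩⟩
    have h1 : (N:ℝ) ≤ (Z:ℝ) ^ C * ((Reps N k Z (u + g) u).ncard : ℝ) := by exact_mod_cast hg u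
    have h2 : (Reps N k Z (u + g) u).ncard ≤ (Reps N k Y (u + g) u).ncard := by
      refine Set.ncard_le_ncard ?_ (reps_finite _ _ _ _ _)
      rintro p ⟨a1, a2, a3, a4, a5, a6, a7, a8, a9⟩
      exact ⟨a1, a2, a3, fun q hq hd => lt_of_le_of_lt hZY (a4 q hq hd),
        fun q hq hd => lt_of_le_of_lt hZY (a5 q hq hd), le_trans (Nat.pow_le_pow_left hZY _) a6,
        le_trans (Nat.pow_le_pow_left hZY _) a7, a8, a9⟩
    have h3 : ((Reps N k Z (u + g) u).ncard : ℝ) ≤ ((Reps N k Y (u + g) u).ncard : ℝ) := by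
      exact_mod_cast h2
    rw [one_div, inv_mul_le_iff₀ hZp]
    exact h1.trans (mul_le_mul_of_nonneg_left h3 hZp.le)
  · obtain ⟨R, N₀, δ, hδ, h⟩ := Pool.Agent.TH423.PO.mainG Pool.Agent.TH423.PO.gct_all k hk ε hε
    refine ⟨R, max N₀ 1, δ, hδ, fun N hN hev => ?_⟩
    obtain ⟨g, hg⟩ := h N ((le_max_left _ _).trans hN) hev
    have hfin : ∀ u : ZMod k, {p : ℕ × ℕ | p ∈ Reps N k 1 (u + g) u ∧ cardFactors p.1 ≤ R ∧
        cardFactors p.2 ≤ R ∧ (∀ q : ℕ, q.Prime → q ∣ p.1 → (N : ℝ) ^ δ < q) ∧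
          (∀ q : ℕ, q.Prime → q ∣ p.2 → (N : ℝ) ^ δ < q)}.Finite := fun u =>
      (reps_finite N k 1 (u + g) u).subset fun p hp => hp.1
    refine ⟨g, fun u => ⟨hfin u, (hg u).trans ?_⟩⟩
    rw [Nat.cast_le]
    refine Set.ncard_le_ncard_of_injOn (fun x => (x, N - x)) ?_ ?_ (hfin u)
    · rintro x ⟨hx1, hxN, ha, hb, hc, hd⟩
      have hN1 : 1 ≤ N := (le_max_right _ _).trans hN
      refine ⟨⟨?_, hx1, ?_, fun q hq _ => hq.one_lt, fun q hq _ => hq.one_lt, ?_, ?_, hc, hd⟩,
        ?_, ?_, ?_, ?_⟩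
      · show x + (N - x) = N
        omega
      · show 0 < N - x
        omega
      · show 1 ^ _ ≤ N
        rw [one_pow]; exact hN1
      · show 1 ^ _ ≤ N
        rw [one_pow]; exact hN1
      · simpa using ha.2.2
      · have h1 := hb.2.2
        rw [Int.natAbs_natCast] at h1
        exact h1
      · intro p hp hpx
        exact ha.2.1 p hp (by exact_mod_cast hpx)
      · intro p hp hpx
        exact hb.2.1 p hp (Int.natCast_dvd_natCast.2 hpx)
    · intro x _ y _ hxy
      exact (Prod.mk.inj hxy).1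

end Pool.Agent.Results.MP_dd84fd_nt.ClassesOfOmegaAllScales
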