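import Pool.Agent.V11150.TradeG

/-!
# Many Goldbach representations near every integer, or close primes with differences in given sets

Let `B_1, ..., B_n` be sets of natural numbers such that each `B_i` contains, for every `W > 0`,
infinitely many integers prime to `W` (for example the reduced residue classes to all moduli up to a
bound, infinite sets of primes, or very sparse sets). For all `A`, `m` there is `C` such that for EVERY
sufficiently large `N` at least one of the following holds.

1. Every nonempty family `I` of the sets has a subfamily `J` with at least `5 |I| / 9` members (with two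
   members, if `I` has two) such that for at least `N / (log N) ^ C` integers `|x| ≤ C N` and all
   `i ∈ J` there is `u ∈ B_i`, `u ≤ C`, for which `x + u` is prime.
2. For all `1 ≤ b ≤ A`, EVERY integer `c` between `3 b N / 5` and `4 b N / 5` has at least `m` integers
   `c'` with `|c' - c| ≤ C` for which the number of pairs of primes with `p + b p' = c'` is at least
   `N / (log N) ^ C`.

For `b = 1` the number in 2. is the `g(c')` of the question. So at every scale `N` either every integer
in `[3N/5, 4N/5]` is, without any exceptions, at a bounded distance from `m` integers `c'` with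
`g(c') ≥ N / (log N) ^ C`, or there are many pairs of primes with bounded differences in
`B_1 - B_2`, for all pairs of sets of the family: for reduced residue classes, in every even residue
class to every small modulus.

Proof: the coloured Maynard-Tao theorem with the constant `18/5` and a power of the logarithm, of the
starting files (`Pool.Agent.Y827.RO.lamR0`), for the classes (form, set, copy).
-/

set_option autoImplicit false

namespace Pool.Agent.Results.MP_dd84fd_nt.GoldbachOrClosePrimes

open Finset Filter

/-- the number of pairs of primes with `p + b p' = c`; for `b = 1` this is the `g(c)` of the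
question -/
noncomputable def rep (b : ℕ) (c : ℤ) : ℕ :=
  {x : ℕ × ℕ | x.1.Prime ∧ x.2.Prime ∧ (x.1 : ℤ) + b * x.2 = c}.ncard

/-- the number of integers `|x| ≤ X` such that for every `i ∈ J` there is `u ∈ B i`, `u ≤ C`, for which
`x + u` is prime -/
noncomputable def common {n : ℕ} (B : Fin n → Set ℕ) (J : Finset (Fin n)) (C X : ℕ) : ℕ :=
  {x : ℤ | |x| ≤ X ∧ ∀ i ∈ J, ∃ u : ℕ, u ∈ B i ∧ u ≤ C ∧ (x + u).toNat.Prime}.ncard

theorem result : ∀ (n : ℕ) (B : Fin n → Set ℕ),
    (∀ i, ∀ W : ℕ, 0 < W → {b : ℕ | b ∈ B i ∧ Nat.Coprime b W}.Infinite) →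
    ∀ A m : ℕ, ∃ C : ℕ, ∀ᶠ N : ℕ in atTop,
    (∀ I : Finset (Fin n), I.Nonempty → ∃ J ⊆ I, 5 * I.card ≤ 9 * J.card ∧
      (N : ℝ) / (Real.log N) ^ C ≤ (common B J C (C * N) : ℝ)) ∨
    (∀ b : ℕ, 1 ≤ b → b ≤ A → ∀ c : ℤ, 3 * (b * N) ≤ 5 * c → 5 * c ≤ 4 * (b * N) →
      ∃ S : Finset ℤ, m ≤ S.card ∧ ∀ c' ∈ S, |c' - c| ≤ C ∧
        (N : ℝ) / (Real.log N) ^ C ≤ (rep b c' : ℝ)) := by
  intro n B hB A m
  obtain ⟨C, hC⟩ := Pool.Agent.V11150.TradeG.main B hB A m
  exact ⟨C, hC⟩

end Pool.Agent.Results.MP_dd84fd_nt.GoldbachOrClosePrimes
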