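import Pool.Agent.V1137.Lin2

/-!
Almost all vectors `(N_1, ..., N_r)` of even integers without local obstruction have the expected
number, up to a constant factor, of simultaneous Goldbach representations `N_j = p + q_j` with a
common isolated prime `p`: there is no other prime at distance at most `Λ log p` from `p`.
-/

set_option autoImplicit false

open Finset Filter Topology

namespace Pool.Agent.Results.MP_dd84fd_nt.IsolatedCommonSummands

/-- There is no prime `q ≠ p` with `|q - p| ≤ Λ log p`. -/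
def Isolated (Λ : ℝ) (p : ℕ) : Prop :=
  ∀ q : ℕ, q.Prime → |(q : ℝ) - p| ≤ Λ * Real.log p → q = p

/-- For every prime `l` there is an integer `n` such that `l` divides none of the numbers
`n, N_1 - n, ..., N_r - n`. -/
def NoObstruction {r : ℕ} (N : Fin r → ℕ) : Prop :=
  ∀ l : ℕ, l.Prime → ∃ n : ℤ, ¬ (l : ℤ) ∣ n ∧ ∀ j, ¬ (l : ℤ) ∣ N j - n

/-- The least of the numbers `N_j` (zero if `r = 0`). -/
noncomputable def least {r : ℕ} (N : Fin r → ℕ) : ℕ := ⨅ j, N j

open Classical in
/-- The isolated primes `p ≤ min N_j` for which all `N_j - p` are prime. -/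
noncomputable def summands {r : ℕ} (Λ : ℝ) (N : Fin r → ℕ) : Finset ℕ :=
  (Icc 1 (least N)).filter (fun p => p.Prime ∧ Isolated Λ p ∧ ∀ j, (N j - p).Prime)

open Classical in
/-- The vectors in `[1, x] ^ r` without local obstruction and with fewer than
`δ y / (log y) ^ (r + 1)` such primes, where `y = min N_j`. -/
noncomputable def exceptions (r : ℕ) (Λ δ : ℝ) (x : ℕ) : Finset (Fin r → ℕ) :=
  (Fintype.piFinset (fun _ : Fin r => Icc 1 x)).filter (fun N => NoObstruction N ∧
    ((summands Λ N).card : ℝ) < δ * (least N / Real.log (least N) ^ (r + 1)))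

open Pool.Agent.V1137.Unav in
/-- **Common isolated summands in Goldbach's problem.** For all `r` and `Λ > 0` there is `δ > 0` such
that for all vectors `(N_1, ..., N_r)` of integers `1 ≤ N_j ≤ x` without local obstruction (for
`r = 1`: for all even `N_1 ≤ x`), with `o(x ^ r)` exceptions as `x → ∞`, there are at least
`δ y / (log y) ^ (r + 1)` primes `p`, `y = min N_j`, for which all the numbers `N_j - p` are prime and
there is no prime `q ≠ p` with `|q - p| ≤ Λ log p`. -/
theorem result (r : ℕ) (Λ : ℝ) (hΛ : 0 < Λ) : ∃ δ : ℝ, 0 < δ ∧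
    Tendsto (fun x : ℕ => ((exceptions r Λ δ x).card : ℝ) / (x : ℝ) ^ r) atTop (𝓝 0) := by
  classical
  obtain ⟨c, hc, h⟩ := lin_all r (isolated Λ) (isolated_all Λ hΛ)
  refine ⟨c, hc, ?_⟩
  apply tendsto_zero_of r _ (fun x => Nat.cast_nonneg _)
  intro η hη
  set θ : ℝ := η / (2 * (r + 1)) with hθ
  have hθ0 : 0 < θ := by rw [hθ]; positivity
  obtain ⟨x₀, h0⟩ := h (fun _ => -1) (fun _ => Or.inr rfl) 1 θ (η / 2) hθ0 (by positivity)
  refine ⟨x₀, fun x hx => ?_⟩
  have h1 := h0 x hx
  have h2 := few_small (fun _ : Fin r => 1) (fun _ => ⌊θ * x⌋₊) 1 x θ 1 hθ0.le le_rfl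
    (by norm_num) (fun j => by
      rw [pow_one]
      exact Nat.floor_le (by positivity))
  have hsub : exceptions r Λ c x ⊆
      ((Fintype.piFinset (fun _ : Fin r => Icc 1 (1 * x))).filter (fun k =>
        Pool.Agent.TH882.KS.LocV (fun _ => -1) (fun _ => Polynomial.X) k ∧ ∃ y : ℕ,
          θ * x ≤ y ∧ y ≤ x ∧ (∀ j : Fin r, (-1 : ℤ) = -1 → y ≤ k j) ∧
          ((ArgL (isolated Λ) (fun _ => -1) y k).card : ℝ) <
            c * (y / Real.log y ^ (r + 1)))) ∪
      ((Fintype.piFinset (fun _ : Fin r => Icc 1 (1 * x ^ 1))).filter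
        (fun k => ∃ j, k j ≤ ⌊θ * x⌋₊)) := by
    intro N hN
    unfold exceptions at hN
    rw [mem_filter, Fintype.mem_piFinset] at hN
    obtain ⟨hN1, hN2, hN3⟩ := hN
    rw [mem_union, mem_filter, mem_filter, Fintype.mem_piFinset, Fintype.mem_piFinset]
    by_cases hs : ∃ j, N j ≤ ⌊θ * x⌋₊
    · right
      refine ⟨fun j => ?_, hs⟩
      rw [pow_one, one_mul]
      exact hN1 j
    · left
      push Not at hs
      have hr : Nonempty (Fin r) := by
        by_contra hne
        rw [not_nonempty_iff] at hne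
        have e1 : least N = 0 := by
          unfold least iInf
          rw [Set.range_eq_empty, Nat.sInf_empty]
        rw [e1] at hN3
        simp only [Nat.cast_zero, zero_div, mul_zero] at hN3
        have : (0 : ℝ) ≤ (summands Λ N).card := Nat.cast_nonneg _
        linarith
      obtain ⟨j0, hj0⟩ : ∃ j, N j = least N := by
        unfold least
        exact ciInf_mem (f := N)
      refine ⟨fun j => by rw [one_mul]; exact hN1 j, ?_, least N, ?_, ?_, ?_, ?_⟩
      · intro l hl
        obtain ⟨n, hn1, hn2⟩ := hN2 l hl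
        refine ⟨n, hn1, fun j hd => hn2 j ?_⟩
        have e1 : (N j : ℤ) + -1 * (Polynomial.X : Polynomial ℤ).eval n = N j - n := by
          rw [Polynomial.eval_X]
          ring
        rwa [e1] at hd
      · have h3 := hs j0
        rw [hj0] at h3
        exact (Nat.lt_of_floor_lt h3).le
      · rw [← hj0]
        exact (mem_Icc.1 (hN1 j0)).2
      · intro j _
        unfold least
        exact ciInf_le (OrderBot.bddBelow _) j
      · refine lt_of_le_of_lt ?_ hN3
        apply Nat.cast_le.2
        apply card_le_card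
        intro p hp
        unfold ArgL at hp
        unfold summands
        rw [mem_filter] at hp ⊢
        refine ⟨hp.1, hp.2.1, hp.2.2.1, fun j => ?_⟩
        have h3 := hp.2.2.2 j
        have e1 : ((N j : ℤ) + -1 * p).toNat = N j - p := by omega
        rwa [e1] at h3
  have h3 := card_le_card hsub
  have h4 := card_union_le ((Fintype.piFinset (fun _ : Fin r => Icc 1 (1 * x))).filter (fun k =>
        Pool.Agent.TH882.KS.LocV (fun _ => -1) (fun _ => Polynomial.X) k ∧ ∃ y : ℕ,
          θ * x ≤ y ∧ y ≤ x ∧ (∀ j : Fin r, (-1 : ℤ) = -1 → y ≤ k j) ∧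
          ((ArgL (isolated Λ) (fun _ => -1) y k).card : ℝ) <
            c * (y / Real.log y ^ (r + 1))))
      ((Fintype.piFinset (fun _ : Fin r => Icc 1 (1 * x ^ 1))).filter
        (fun k => ∃ j, k j ≤ ⌊θ * x⌋₊))
  have h5 : ((exceptions r Λ c x).card : ℝ) ≤
      (((Fintype.piFinset (fun _ : Fin r => Icc 1 (1 * x))).filter (fun k =>
        Pool.Agent.TH882.KS.LocV (fun _ => -1) (fun _ => Polynomial.X) k ∧ ∃ y : ℕ,
          θ * x ≤ y ∧ y ≤ x ∧ (∀ j : Fin r, (-1 : ℤ) = -1 → y ≤ k j) ∧
          ((ArgL (isolated Λ) (fun _ => -1) y k).card : ℝ) <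
            c * (y / Real.log y ^ (r + 1)))).card : ℝ) +
      (((Fintype.piFinset (fun _ : Fin r => Icc 1 (1 * x ^ 1))).filter
        (fun k => ∃ j, k j ≤ ⌊θ * x⌋₊)).card : ℝ) := by
    exact_mod_cast h3.trans h4
  have h6 : (r : ℝ) * (θ * 1 ^ r) * ∏ _j : Fin r, (x : ℝ) ^ 1 ≤ η / 2 * (x : ℝ) ^ r := by
    rw [prod_const, card_univ, Fintype.card_fin, pow_one, one_pow, mul_one]
    apply mul_le_mul_of_nonneg_right _ (by positivity)
    rw [hθ, mul_div_assoc', div_le_div_iff₀ (by positivity) (by norm_num)]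
    nlinarith
  linarith

end Pool.Agent.Results.MP_dd84fd_nt.IsolatedCommonSummands
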