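import Pool.Agent.V11251.DS.LinM5
import Pool.Agent.V11251.DS.LinM6

/-!
# Simultaneous Goldbach representations of numbers with rearranged digits with a common prime

The analytic input (the law of the rearranged digits, second moments of the error for one form, deterministic parts for
systems of linear forms) is in the starting files `Pool.Agent.H373R2.T7`, `Pool.Agent.W93`, `Pool.Agent.TH872`,
`Pool.Agent.Y820.LF`.
-/

set_option autoImplicit false

namespace Pool.Agent.Results.MP_dd84fd_nt.RearrangedCommonPrimes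

open Finset

/-- `d` is a word of `k` digits in base `b`, in which no digit stands at more than `(1 - η) k` places. -/
def Mixed (b k : ℕ) (η : ℝ) (d : Fin k → ℕ) : Prop :=
  (∀ i, d i < b) ∧ ∀ a, ((univ.filter fun i => d i = a).card : ℝ) ≤ (1 - η) * k

/-- The integer whose `k` digits in base `b` are the digits `d` rearranged by the permutation `σ`: the digit number `j`
(the coefficient of `b ^ j`) is `d (σ j)`. -/
def rearranged (b : ℕ) {k : ℕ} (d : Fin k → ℕ) (σ : Equiv.Perm (Fin k)) : ℕ := ∑ j : Fin k, d (σ j) * b ^ (j : ℕ)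

/-- The number of the residues `r` modulo `p` with `r = 0` or `r ≡ Y i` for some `i`. -/
def nu {s : ℕ} (Y : Fin s → ℕ) (p : ℕ) : ℕ := ((range p).filter (fun r => r = 0 ∨ ∃ i, r = Y i % p)).card

/-- There is no local obstruction: for every prime `p` some residue modulo `p` is different from `0` and from all the
`Y i`. (For `s = 1`: `Y` is even.) -/
def NoObstruction {s : ℕ} (Y : Fin s → ℕ) : Prop := ∀ p : ℕ, p.Prime → nu Y p < p

/-- The partial product of the singular series over the primes `p ≤ z`. -/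
noncomputable def sing {s : ℕ} (Y : Fin s → ℕ) (z : ℕ) : ℝ :=
  ∏ p ∈ (Icc 1 z).filter Nat.Prime, (1 - (nu Y p : ℝ) / p) / (1 - 1 / (p : ℝ)) ^ (s + 1)

/-- The primes `p ≤ X` for which all the numbers `Y i - p` are primes. -/
def common {s : ℕ} (Y : Fin s → ℕ) (X : ℕ) : Finset ℕ :=
  (Icc 1 X).filter (fun p : ℕ => p.Prime ∧ ∀ i, (Y i - p).Prime)

/-- The formula of Hardy and Littlewood: the singular series converges to a number `S > 0`, and the number of the primes
`p ≤ X` for which all the numbers `Y i - p` are primes is `S X / log ^ (s + 1) X`, up to a factor between `1 - ε` and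
`1 + ε`. -/
def Formula {s : ℕ} (ε : ℝ) (Y : Fin s → ℕ) (X : ℕ) : Prop :=
  ∃ S : ℝ, 0 < S ∧ Filter.Tendsto (sing Y) Filter.atTop (nhds S) ∧
    |((common Y X).card : ℝ) - S * (X / Real.log X ^ (s + 1))| ≤ ε * (S * (X / Real.log X ^ (s + 1)))

/-- If there is no local obstruction, then the formula holds for all `X` between `N / M` and `N` which are smaller than
all the `Y i`. -/
def Good {s : ℕ} (ε : ℝ) (M N : ℕ) (Y : Fin s → ℕ) : Prop :=
  NoObstruction Y → ∀ X ≤ N, N ≤ M * X → (∀ i, X < Y i) → Formula ε Y X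

open Classical in
/-- Let `s ≥ 1`, bases `b i ≥ 2`, `η > 0`, `κ i ≥ 1` (`i < s`), `B`, `M`, `U` and `ε > 0` be fixed. Let `N` be large, let
`k i` be lengths with `N / B ≤ b i ^ k i ≤ B N`, let `0 ≤ c i ≤ B N`, and let `d i` be ANY word of `k i` digits in base
`b i`, in which no digit stands at more than `(1 - η) k i` places. Rearrange the digits of each `d i` by a permutation
`σ i`, let `v i` be the integer with the rearranged digits, and put `Y i = c i + κ i v i`. Then all the vectors
`(σ 1, ..., σ s)` of permutations, with the exception of a proportion of at most `1 / log ^ U N` of them, have the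
following property: if there is no local obstruction, then the formula of Hardy and Littlewood for the number of the
simultaneous representations `Y i = p + p i`, `i < s`, with primes `p 1, ..., p s` and a COMMON prime `p ≤ X`, holds for
all `X` between `N / M` and `N` which are smaller than all the `Y i`. -/
theorem result (s : ℕ) (hs : 1 ≤ s) (b : Fin s → ℕ) (hb : ∀ i, 2 ≤ b i) (η : ℝ) (hη : 0 < η)
    (κ : Fin s → ℕ) (hκ : ∀ i, 1 ≤ κ i) (B M U : ℕ) (ε : ℝ) (hε : 0 < ε) :
    ∃ N₀ : ℕ, ∀ N, N₀ ≤ N → ∀ k : Fin s → ℕ, (∀ i, N ≤ B * b i ^ k i ∧ b i ^ k i ≤ B * N) →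
      ∀ d : ∀ i, Fin (k i) → ℕ, (∀ i, Mixed (b i) (k i) η (d i)) → ∀ c : Fin s → ℕ, (∀ i, c i ≤ B * N) →
        ((univ.filter fun σ : ∀ i, Equiv.Perm (Fin (k i)) =>
          ¬ Good ε M N (fun i => c i + κ i * rearranged (b i) (d i) (σ i))).card : ℝ) ≤
        ((∏ i, (k i).factorial : ℕ) : ℝ) / Real.log N ^ U := by
  obtain ⟨N₀, h⟩ := Pool.Agent.V11251.DS.perm_lin1 s hs b hb η hη (fun i => (κ i : ℤ)) (fun _ => -1)
    (fun i => by have := hκ i; exact_mod_cast (by omega : κ i ≠ 0)) (fun _ => by norm_num) B M U ε hε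
  refine ⟨N₀, fun N hN k hk d hd c hc => ?_⟩
  have h1 := h N hN k (fun i => ⟨(hk i).2, (hk i).1⟩) d (fun i => ⟨(hd i).1, (hd i).2⟩) (fun i => (c i : ℤ)) (fun i => by
    rw [abs_of_nonneg (by positivity)]; exact_mod_cast hc i)
  rw [Nat.cast_prod]
  refine le_trans (Nat.cast_le.2 (card_le_card ?_)) h1
  intro σ hY
  rw [mem_filter] at hY ⊢
  refine ⟨hY.1, ?_⟩
  have e2 : ∀ i, (((c i + κ i * rearranged (b i) (d i) (σ i) : ℕ)) : ℤ) =
      (c i : ℤ) + (κ i : ℤ) * ((Pool.Agent.TH872.An.V (b i) (d i) (σ i) : ℕ) : ℤ) := fun i => by push_cast; rfl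
  have h2 := hY.2
  unfold Good at h2
  push Not at h2
  obtain ⟨hobs, X, hX1, hX2, hX3, hX4⟩ := h2
  refine ⟨X, hX1, hX2, ?_, ?_, ?_⟩
  · intro i
    have h3 : (X : ℤ) < ((c i + κ i * rearranged (b i) (d i) (σ i) : ℕ) : ℤ) := by exact_mod_cast hX3 i
    rw [e2] at h3
    constructor
    · by_cases hX0 : X = 0
      · exfalso
        rw [hX0, mul_zero] at hX2
        have h4 : N = 0 := by omega
        have h5 := (hk i).2
        rw [h4, mul_zero] at h5
        have h6 : 0 < b i ^ k i := by have := hb i; positivity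
        omega
      · have h4 : (1 : ℤ) ≤ X := by exact_mod_cast Nat.one_le_iff_ne_zero.2 hX0
        linarith
    · linarith
  · simp only [← e2]
    intro p hp
    rw [Pool.Agent.V11251.DS.gold_nu]
    exact hobs p hp
  · simp only [← e2]
    intro hgood
    exact hX4 (Pool.Agent.V11251.DS.gold_good ε X _ hgood)

end Pool.Agent.Results.MP_dd84fd_nt.RearrangedCommonPrimes
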